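import Mathlib
import Pool.Agent.Dicut.Orders

set_option autoImplicit false

/-- Acyclic directed multigraphs: `hMulti m = m / 4 + m ^ (3 / 5 + o(1))`, with explicit
two-sided bounds. -/
theorem Pool.Agent.Results.MP_ac065a_co.MultiOrder.result :
    ∃ c C : ℝ, 0 < c ∧ ∀ m : ℕ, 1 ≤ m →
      (m : ℝ) / 4 + c * (m : ℝ) ^ (3 / 5 : ℝ) ≤ (Pool.Agent.Dicut.hMulti m : ℝ) ∧
        (Pool.Agent.Dicut.hMulti m : ℝ)
          ≤ (m : ℝ) / 4 + C * (m : ℝ) ^ (3 / 5 : ℝ) * Real.exp (C * Real.sqrt (Real.log (m : ℝ))) :=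
  Pool.Agent.Dicut.multi_order
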