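import Mathlib
import Pool.Agent.HPl.Assemble
import Pool.Agent.Dicut.SimpleAsm
import Pool.Agent.Dicut.Orders

set_option autoImplicit false

/-- The orders of magnitude of the second-order terms for the three functions of the question:
`h m - m / 4` (digraphs) is of order `m ^ (5 / 7)` up to a power of `log m`,
`hMulti m - m / 4` (multigraphs) is `m ^ (3 / 5 + o(1))` and `hWeighted w - w / 4`
(weighted digraphs) is `Θ(w ^ (3 / 5))`. -/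
theorem Pool.Agent.Results.MP_ac065a_co.Orders.result :
    (∃ c C : ℝ, 0 < c ∧ ∀ m : ℕ, 1 ≤ m →
      (m : ℝ) / 4 + c * (m : ℝ) ^ (5 / 7 : ℝ) / (1 + Real.log (m : ℝ)) ^ 12
          ≤ (Pool.Agent.Dicut.h m : ℝ) ∧
        (Pool.Agent.Dicut.h m : ℝ) ≤ (m : ℝ) / 4 + C * (m : ℝ) ^ (5 / 7 : ℝ)) ∧
    (∃ c C : ℝ, 0 < c ∧ ∀ m : ℕ, 1 ≤ m →
      (m : ℝ) / 4 + c * (m : ℝ) ^ (3 / 5 : ℝ) ≤ (Pool.Agent.Dicut.hMulti m : ℝ) ∧
        (Pool.Agent.Dicut.hMulti m : ℝ)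
          ≤ (m : ℝ) / 4
            + C * (m : ℝ) ^ (3 / 5 : ℝ) * Real.exp (C * Real.sqrt (Real.log (m : ℝ)))) ∧
    ∃ c C : ℝ, 0 < c ∧ ∀ w : ℝ, 1 ≤ w →
      w / 4 + c * w ^ (3 / 5 : ℝ) ≤ Pool.Agent.Dicut.hWeighted w ∧
        Pool.Agent.Dicut.hWeighted w ≤ w / 4 + C * w ^ (3 / 5 : ℝ) := by
  obtain ⟨c, hc, h1⟩ := Pool.Agent.HPl.t_MAINP
  obtain ⟨C, h2⟩ := Pool.Agent.Dicut.simple_upper
  exact ⟨⟨c, C, hc, fun m hm => ⟨h1 m hm, h2 m hm⟩⟩, Pool.Agent.Dicut.multi_order,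
    Pool.Agent.Dicut.weighted_order⟩
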