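import Mathlib
import Pool.Agent.HPl.Assemble
import Pool.Agent.Dicut.SimpleAsm

set_option autoImplicit false

/-- Acyclic digraphs (no parallel arcs): `h m - m / 4` is of order `m ^ (5 / 7)` up to a factor
which is a power of `log m`. -/
theorem Pool.Agent.Results.MP_ac065a_co.SimpleOrder.result :
    ∃ c C : ℝ, 0 < c ∧ ∀ m : ℕ, 1 ≤ m →
      (m : ℝ) / 4 + c * (m : ℝ) ^ (5 / 7 : ℝ) / (1 + Real.log (m : ℝ)) ^ 12
          ≤ (Pool.Agent.Dicut.h m : ℝ) ∧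
        (Pool.Agent.Dicut.h m : ℝ) ≤ (m : ℝ) / 4 + C * (m : ℝ) ^ (5 / 7 : ℝ) := by
  obtain ⟨c, hc, h1⟩ := Pool.Agent.HPl.t_MAINP
  obtain ⟨C, h2⟩ := Pool.Agent.Dicut.simple_upper
  exact ⟨c, C, hc, fun m hm => ⟨h1 m hm, h2 m hm⟩⟩
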