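import Mathlib
import Pool.Agent.Dicut.Orders

set_option autoImplicit false

/-- The order of magnitude of the error term in the weighted problem: it is exactly
`w ^ (3 / 5)`. -/
theorem Pool.Agent.Results.MP_ac065a_co.WeightedOrder.result :
    ∃ c C : ℝ, 0 < c ∧ ∀ w : ℝ, 1 ≤ w →
      w / 4 + c * w ^ (3 / 5 : ℝ) ≤ Pool.Agent.Dicut.hWeighted w ∧
        Pool.Agent.Dicut.hWeighted w ≤ w / 4 + C * w ^ (3 / 5 : ℝ) :=
  Pool.Agent.Dicut.weighted_order
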